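import Pool.Agent.Helper581.CP.Words

/-!
# Normal subgroups and subgroups of finite index of the branch group
-/

set_option autoImplicit false

namespace Pool.Agent.Y482.Br

open Equiv
open scoped commutatorElement
open Pool.Agent.Helper581.CP

/-- the groups `Del n` are perfect -/
theorem del_perfect (n : ℕ) : Del n ≤ ⁅Del n, Del n⁆ := by
  have h1 : ∀ a : A, rt a ∈ ⁅Del n, Del n⁆ :=
    perf rt _ fun e e' => by
      rw [map_commutatorElement]
      exact Subgroup.commutator_mem_commutator (rt_mem n e) (rt_mem n e')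
  have h2 : ∀ e : A, D n (e, 1) ∈ ⁅Del n, Del n⁆ :=
    perf ((D n).comp (MonoidHom.inl A (ℕ → A))) _ fun e e' => by
      rw [map_commutatorElement]
      exact Subgroup.commutator_mem_commutator (D_one_mem n e) (D_one_mem n e')
  have h3 : ∀ k < n, ∀ e : A, T n k e ∈ ⁅Del n, Del n⁆ := by
    intro k hk
    have h4 : ∀ e : A, T n k e ∈ Del n := fun e =>
      D_mem fun i hi => Pi.mulSingle_eq_of_ne (by omega) _
    exact perf (T n k) _ fun e e' => by
      rw [map_commutatorElement]
      exact Subgroup.commutator_mem_commutator (h4 e) (h4 e')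
  have h5 : ∀ m ≤ n, ∀ f : ℕ → A, (∀ i, m ≤ i → f i = 1) → D n (1, f) ∈ ⁅Del n, Del n⁆ := by
    intro m
    induction m with
    | zero =>
      intro _ f hf
      have : f = 1 := funext fun i => hf i (Nat.zero_le i)
      rw [this]
      have h6 : D n ((1 : A), (1 : ℕ → A)) = 1 := map_one (D n)
      rw [h6]
      exact one_mem _
    | succ m ih =>
      intro hm f hf
      have h6 : D n (1, f) = D n (1, f * (Pi.mulSingle m (f m))⁻¹) * T n m (f m) := by
        rw [T_eq, ← map_mul]
        congr 1
        ext1 <;> simp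
      rw [h6]
      refine mul_mem (ih (by omega) _ fun i hi => ?_) (h3 m (by omega) _)
      rcases eq_or_lt_of_le hi with rfl | h
      · simp
      · rw [Pi.mul_apply, Pi.inv_apply, hf i h, Pi.mulSingle_eq_of_ne (ne_of_gt h), inv_one, mul_one]
  unfold Del
  rw [Subgroup.closure_le]
  rintro g (⟨a, rfl⟩ | ⟨e, f, hf, rfl⟩)
  · exact h1 a
  · have h6 : D n (e, f) = D n (e, 1) * D n (1, f) := by
      rw [← map_mul]
      congr 1
    rw [h6]
    exact mul_mem (h2 e) (h5 n le_rfl f hf)

/-- images of prefixes -/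
lemma prefix_image {g : Perm W} (hg : g ∈ Del 0) {v w : W} (h : v <+: w) : g v <+: g w := by
  obtain ⟨u, rfl⟩ := h
  obtain ⟨v', s, -, hs, e⟩ := Del_path v hg
  have h1 := e []
  rw [List.append_nil, Del_nil hs, List.append_nil] at h1
  rw [e u, h1]
  exact List.prefix_append _ _

/-- conjugates of elements supported below a vertex -/
lemma conj_path {g : Perm W} (hg : g ∈ Del 0) (v : W) : ∃ s ∈ Del v.length, ∀ h : Perm W,
    g * dpath v h * g⁻¹ = dpath (g v) (s * h * s⁻¹) := by
  obtain ⟨v', s, hl, hs, e⟩ := Del_path v hg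
  have h1 := e []
  rw [List.append_nil, Del_nil hs, List.append_nil] at h1
  rw [zero_add] at hs
  refine ⟨s, hs, fun h => ?_⟩
  rw [mul_inv_eq_iff_eq_mul, h1]
  ext w : 1
  rw [Perm.mul_apply, Perm.mul_apply]
  by_cases hp : v <+: w
  · obtain ⟨u, rfl⟩ := hp
    rw [dpath_append, e, e, dpath_append]
    simp
  · rw [dpath_not_prefix v _ _ hp, dpath_not_prefix]
    intro hc
    apply hp
    have h2 := prefix_image (inv_mem hg) hc
    rw [← h1] at h2
    simpa using h2

/-- elements of the group supported below a vertex -/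
def G.dp (v : W) : Del v.length →* G where
  toFun h := ⟨dpath v h.1, dpath_mem v (by rw [zero_add]; exact h.2)⟩
  map_one' := by ext1; simp
  map_mul' a b := by ext1; simp

/-- a nontrivial normal subgroup contains a rigid stabilizer -/
theorem rist_le {N : Subgroup G} [hN : N.Normal] {g : G} (hg : g ∈ N) {v : W} (hv : g.1 v ≠ v)
    (h : Del v.length) : G.dp v h ∈ N := by
  have key : ∀ a b : Del v.length, G.dp v ⁅a, b⁆ ∈ N := by
    intro a b
    have hE : ∀ w : W, (g * (G.dp v a)⁻¹ * g⁻¹ : G).1 w = w ∨ (G.dp v b).1 w = w := by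
      intro w
      by_cases hw : v <+: w
      · left
        have e : (g * (G.dp v a)⁻¹ * g⁻¹ : G).1 w = g.1 (dpath v a.1⁻¹ (g.1⁻¹ w)) := by
          rw [map_inv]
          rfl
        rw [e, dpath_not_prefix]
        · simp
        · intro hc
          apply hv
          have h2 := prefix_image g.2 hc
          rw [show g.1 (g.1⁻¹ w) = w by simp] at h2
          have h3 := List.prefix_of_prefix_length_le h2 hw (Del_length v g.2).le
          exact h3.eq_of_length (Del_length v g.2)
      · right
        exact dpath_not_prefix v _ _ hw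
    have hcomm : Commute (g * (G.dp v a)⁻¹ * g⁻¹) (G.dp v b) := by
      have h1 : Perm.Disjoint (g * (G.dp v a)⁻¹ * g⁻¹ : G).1 (G.dp v b).1 := hE
      exact Subtype.ext h1.commute.eq
    have h1 : ⁅G.dp v a, g⁆ ∈ N := by
      rw [commutatorElement_def]
      have := hN.conj_mem g hg (G.dp v a)
      exact mul_mem this (inv_mem hg)
    have h2 : ⁅⁅G.dp v a, g⁆, G.dp v b⁆ ∈ N := by
      rw [commutatorElement_def]
      have := hN.conj_mem _ (inv_mem h1) (G.dp v b)
      have e : ⁅G.dp v a, g⁆ * G.dp v b * ⁅G.dp v a, g⁆⁻¹ * (G.dp v b)⁻¹ =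
          ⁅G.dp v a, g⁆ * (G.dp v b * ⁅G.dp v a, g⁆⁻¹ * (G.dp v b)⁻¹) := by group
      rw [e]
      exact mul_mem h1 this
    have e1 : ⁅G.dp v a, g⁆ = G.dp v a * (g * (G.dp v a)⁻¹ * g⁻¹) := by
      rw [commutatorElement_def]; group
    have e2 : ⁅⁅G.dp v a, g⁆, G.dp v b⁆ = ⁅G.dp v a, G.dp v b⁆ := by
      rw [e1]
      generalize g * (G.dp v a)⁻¹ * g⁻¹ = E at hcomm
      rw [commutatorElement_def, commutatorElement_def, mul_inv_rev]
      calc G.dp v a * E * G.dp v b * (E⁻¹ * (G.dp v a)⁻¹) * (G.dp v b)⁻¹ =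
          G.dp v a * (E * G.dp v b) * E⁻¹ * (G.dp v a)⁻¹ * (G.dp v b)⁻¹ := by group
        _ = G.dp v a * (G.dp v b * E) * E⁻¹ * (G.dp v a)⁻¹ * (G.dp v b)⁻¹ := by rw [hcomm.eq]
        _ = _ := by group
    rw [map_commutatorElement, ← e2]
    exact h2
  have h1 : (h : Perm W) ∈ ⁅Del v.length, Del v.length⁆ := del_perfect _ h.2
  have h2 : ⁅(⊤ : Subgroup (Del v.length)), (⊤ : Subgroup (Del v.length))⁆ ≤ N.comap (G.dp v) := by
    rw [Subgroup.commutator_le]
    intro a _ b _
    exact key a b
  have h3 : h ∈ ⁅(⊤ : Subgroup (Del v.length)), (⊤ : Subgroup (Del v.length))⁆ := by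
    have h4 : ⁅Del v.length, Del v.length⁆ =
        (⁅(⊤ : Subgroup (Del v.length)), (⊤ : Subgroup (Del v.length))⁆).map
          (Del v.length).subtype := by
      rw [Subgroup.map_commutator, ← MonoidHom.range_eq_map, Subgroup.range_subtype]
    rw [h4, Subgroup.mem_map] at h1
    obtain ⟨x, hx, hxh⟩ := h1
    have : x = h := Subtype.ext hxh
    rw [← this]
    exact hx
  exact h2 h3

/-- a nontrivial normal subgroup contains all the rigid stabilizers of a level -/
theorem rist_le_all {N : Subgroup G} [hN : N.Normal] (hne : N ≠ ⊥) :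
    ∃ n : ℕ, ∀ u : W, u.length = n → ∀ h : Del u.length, G.dp u h ∈ N := by
  obtain ⟨g, hg, hg1⟩ : ∃ g : G, g ∈ N ∧ g ≠ 1 := by
    obtain ⟨g, hg⟩ := Subgroup.ne_bot_iff_exists_ne_one.1 hne
    exact ⟨g.1, g.2, fun h => hg (Subtype.ext h)⟩
  obtain ⟨v, hv⟩ : ∃ v, g.1 v ≠ v := by
    by_contra hc
    push Not at hc
    apply hg1
    ext v : 2
    exact hc v
  refine ⟨v.length, fun u hu h => ?_⟩
  obtain ⟨x, hx, hxv⟩ := trans_Del v 0 u hu.symm
  obtain ⟨s, hs, hc⟩ := conj_path hx v
  have hh : (s⁻¹ * h.1 * s : Perm W) ∈ Del v.length := by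
    have h1 : h.1 ∈ Del v.length := by rw [← hu]; exact h.2
    exact mul_mem (mul_mem (inv_mem hs) h1) hs
  have h1 := rist_le hg hv ⟨_, hh⟩
  have h2 := hN.conj_mem _ h1 ⟨x, hx⟩
  have e : (⟨x, hx⟩ * G.dp v ⟨_, hh⟩ * ⟨x, hx⟩⁻¹ : G) = G.dp u h := by
    ext1
    change x * dpath v (s⁻¹ * h.1 * s) * x⁻¹ = dpath u h.1
    rw [hc, hxv]
    congr 1
    group
  rw [← e]
  exact h2

/-- nontrivial normal subgroups have finite index -/
theorem just_infinite {N : Subgroup G} [hN : N.Normal] (hne : N ≠ ⊥) : N.FiniteIndex := by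
  obtain ⟨n, hn⟩ := rist_le_all hne
  have h1 : Subgroup.closure (ristSet n) ≤ N := by
    rw [Subgroup.closure_le]
    rintro g ⟨v, hv, hg⟩
    have hp : ∀ w : W, ¬ v <+: w → g.1 w = w := by
      intro w hw
      apply hg
      rintro ⟨k, rfl⟩
      apply hw
      have : ∀ (k : ℕ) (w : W), List.dropLast^[k] w <+: w := by
        intro k
        induction k with
        | zero => intro w; exact List.prefix_rfl
        | succ k ih =>
          intro w
          rw [Function.iterate_succ_apply]
          exact (ih _).trans (List.dropLast_prefix w)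
      exact this k w
    have hgv : g.1 v = v := by
      by_contra hc
      have hnp : ¬ v <+: g.1 v := fun h => hc (h.eq_of_length (Del_length v g.2).symm).symm
      exact hc (g.1.injective (hp _ hnp))
    obtain ⟨s, hs, hsg⟩ := Del_path_fix g.2 hgv
    rw [zero_add] at hs
    have e : g = G.dp v ⟨s, hs⟩ := by
      ext w : 2
      change g.1 w = dpath v s w
      by_cases hw : v <+: w
      · obtain ⟨u, rfl⟩ := hw
        rw [hsg, dpath_append]
      · rw [hp w hw, dpath_not_prefix v s w hw]
    rw [e]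
    exact hn v hv _
  have := rist_finiteIndex n
  exact Subgroup.finiteIndex_of_le h1

theorem infinite_G : Infinite G := by
  by_contra hc
  rw [not_infinite_iff_finite] at hc
  have h1 : ∀ n : ℕ, n < Nat.card G := by
    intro n
    have h2 : Function.Surjective (fun g : G => (⟨g.1 (List.replicate n 0), by
        rw [Del_length _ g.2, List.length_replicate]⟩ : Lev n)) := by
      rintro ⟨w, hw⟩
      obtain ⟨g, hg, hgw⟩ := trans_Del (List.replicate n 0) 0 w (by simp [hw])
      exact ⟨⟨g, hg⟩, Subtype.ext hgw⟩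
    have h3 : Nat.card (Lev n) ≤ Nat.card G := Nat.card_le_card_of_surjective _ h2
    have h4 : n + 1 ≤ Nat.card (Lev n) := by
      have h5 : Function.Injective (fun i : Fin (n + 1) => (⟨List.replicate i.1 0 ++
          List.replicate (n - i.1) 1, by simp; omega⟩ : Lev n)) := by
        intro i j hij
        have h6 : List.replicate i.1 (0 : X) ++ List.replicate (n - i.1) 1 =
            List.replicate j.1 0 ++ List.replicate (n - j.1) 1 := congrArg Subtype.val hij
        have h7 := congrArg (List.count 0) h6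
        simp [List.count_append, List.count_replicate] at h7
        exact Fin.ext h7
      have h8 := Nat.card_le_card_of_injective _ h5
      rwa [Nat.card_fin] at h8
    omega
  exact lt_irrefl _ (h1 (Nat.card G))

/-- subgroups of finite index contain rigid stabilizers -/
theorem finite_index {H : Subgroup G} [hH : H.FiniteIndex] :
    ∃ n : ℕ, ∀ u : W, n ≤ u.length → ∀ h : Del u.length, G.dp u h ∈ H := by
  have h0 : H.normalCore.FiniteIndex := Subgroup.finiteIndex_normalCore H
  have hne : H.normalCore ≠ ⊥ := by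
    intro hc
    rw [hc] at h0
    have h1 := h0.index_ne_zero
    rw [Subgroup.index_bot] at h1
    have := infinite_G
    exact h1 Nat.card_eq_zero_of_infinite
  obtain ⟨n, hn⟩ := rist_le_all hne
  refine ⟨n, fun u hu h => ?_⟩
  obtain ⟨a, b, rfl, ha⟩ : ∃ a b : W, u = a ++ b ∧ a.length = n :=
    ⟨u.take n, u.drop n, (List.take_append_drop n u).symm, List.length_take_of_le hu⟩
  have hb : dpath b h.1 ∈ Del a.length :=
    dpath_mem b (by rw [← List.length_append]; exact h.2)
  have h1 := hn a ha ⟨_, hb⟩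
  have e : G.dp (a ++ b) h = G.dp a ⟨_, hb⟩ := by
    ext1
    exact dpath_append_path a b h.1
  rw [e]
  exact Subgroup.normalCore_le H h1

end Pool.Agent.Y482.Br
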