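import Pool.Agent.Y482.Br.Fi

/-!
# Rewriting of words in a subgroup of finite index
-/

set_option autoImplicit false

namespace Pool.Agent.Y482.Br

open Equiv
open Pool.Agent.Helper581.CP

/-- the value of a word -/
def wval {K : Type} [Group K] {r : ℕ} (s : Fin r → K) (w : List (Fin r × Bool)) : K :=
  (w.map fun p => if p.2 then s p.1 else (s p.1)⁻¹).prod

lemma wval_append {K : Type} [Group K] {r : ℕ} (s : Fin r → K)
    (w w' : List (Fin r × Bool)) : wval s (w ++ w') = wval s w * wval s w' := by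
  simp [wval]

lemma wval_surj {K : Type} [Group K] {r : ℕ} (s : Fin r → K)
    (hs : Subgroup.closure (Set.range s) = ⊤) (g : K) : ∃ w, wval s w = g := by
  have hg : g ∈ Subgroup.closure (Set.range s) := by rw [hs]; exact Subgroup.mem_top g
  induction hg using Subgroup.closure_induction with
  | mem g hg =>
    obtain ⟨i, rfl⟩ := hg
    exact ⟨[(i, true)], by simp [wval]⟩
  | one => exact ⟨[], rfl⟩
  | mul g h _ _ ihg ihh =>
    obtain ⟨w, rfl⟩ := ihg
    obtain ⟨w', rfl⟩ := ihh
    exact ⟨w ++ w', wval_append s w w'⟩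
  | inv g _ ih =>
    obtain ⟨w, rfl⟩ := ih
    refine ⟨(w.map fun p => (p.1, !p.2)).reverse, ?_⟩
    clear * -
    induction w with
    | nil => simp [wval]
    | cons a w ihw =>
      have h1 : wval s (a :: w) = (if a.2 then s a.1 else (s a.1)⁻¹) * wval s w := by
        simp [wval]
      rw [List.map_cons, List.reverse_cons, wval_append, ihw, h1, mul_inv_rev]
      congr 1
      rcases a with ⟨i, b⟩
      cases b <;> simp [wval]

/-- a word as an element of the group -/
def eG (l : List La) : G := ⟨ev 0 l, ev_mem 0 l⟩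

lemma eG_cons (a : La) (l : List La) : eG (a :: l) = eG [a] * eG l := by
  ext1
  change ev 0 (a :: l) = ev 0 [a] * ev 0 l
  rw [ev_cons, ev_cons, ev_nil, mul_one]

/-- finite transducers are primitive recursive -/
lemma primrec_fold {α σ : Type} [Primcodable α] [Finite α] [Primcodable σ] {m : ℕ}
    (nx : α → Fin m → Fin m) (ω : α → Fin m → List σ) (i0 : Fin m) :
    Primrec fun l : List α => l.foldr (fun a (x : Fin m × List σ) => (nx a x.1, ω a x.1 ++ x.2))
      (i0, []) := by
  have g1 : Primrec fun p : α × Fin m => nx p.1 p.2 := Primrec.dom_finite _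
  have g2 : Primrec fun p : α × Fin m => ω p.1 p.2 := Primrec.dom_finite _
  have g3 : Primrec fun p : List α × α × Fin m × List σ => (p.2.1, p.2.2.1) :=
    Primrec.pair (Primrec.fst.comp Primrec.snd)
      (Primrec.fst.comp (Primrec.snd.comp Primrec.snd))
  have g4 : Primrec fun p : List α × α × Fin m × List σ =>
      (nx p.2.1 p.2.2.1, ω p.2.1 p.2.2.1 ++ p.2.2.2) :=
    Primrec.pair (g1.comp g3)
      (Primrec.list_append.comp (g2.comp g3) (Primrec.snd.comp (Primrec.snd.comp Primrec.snd)))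
  exact Primrec.list_foldr (h := fun _ p => (nx p.1 p.2.1, ω p.1 p.2.1 ++ p.2.2))
    Primrec.id (Primrec.const _) g4

/-- Reidemeister-Schreier rewriting is primitive recursive -/
theorem rewriting {H : Subgroup G} [hH : H.FiniteIndex] {r : ℕ} (s : Fin r → H)
    (hs : Subgroup.closure (Set.range s) = ⊤) :
    ∃ R : List La → List (Fin r × Bool), Primrec R ∧
      ∀ l, eG l ∈ H → ((wval s (R l) : H) : G) = eG l := by
  have hfin : Finite (G ⧸ H) := Subgroup.finite_quotient_of_finiteIndex
  obtain ⟨m, ⟨φ⟩⟩ := Finite.exists_equiv_fin (G ⧸ H)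
  -- representatives
  obtain ⟨t, ht⟩ : ∃ t : Fin m → G, ∀ i, ((t i : G) : G ⧸ H) = φ.symm i :=
    ⟨fun i => (φ.symm i).out, fun i => Quotient.out_eq' _⟩
  -- the action
  let nx : La → Fin m → Fin m := fun a i => φ ((eG [a] * t i : G) : G ⧸ H)
  have hnx : ∀ a i, (t (nx a i))⁻¹ * (eG [a] * t i) ∈ H := by
    intro a i
    rw [← QuotientGroup.eq, ht]
    exact φ.symm_apply_apply _
  have hw : ∀ a i, ∃ w : List (Fin r × Bool),
      ((wval s w : H) : G) = (t (nx a i))⁻¹ * (eG [a] * t i) := by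
    intro a i
    obtain ⟨w, hw⟩ := wval_surj s hs ⟨_, hnx a i⟩
    exact ⟨w, congrArg Subtype.val hw⟩
  choose ω hω using hw
  let i0 : Fin m := φ ((1 : G) : G ⧸ H)
  have ht0 : t i0 ∈ H := by
    have h1 : ((t i0 : G) : G ⧸ H) = ((1 : G) : G ⧸ H) := by
      rw [ht]; exact φ.symm_apply_apply _
    have h2 := QuotientGroup.eq.1 h1
    rw [mul_one] at h2
    simpa using h2
  obtain ⟨wa, hwa⟩ := wval_surj s hs ⟨t i0, ht0⟩
  obtain ⟨wb, hwb⟩ := wval_surj s hs ⟨(t i0)⁻¹, inv_mem ht0⟩
  let F : List La → Fin m × List (Fin r × Bool) := fun l =>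
    l.foldr (fun a x => (nx a x.1, ω a x.1 ++ x.2)) (i0, [])
  have hF : ∀ l, ((t (F l).1 : G) : G ⧸ H) = ((eG l * t i0 : G) : G ⧸ H) ∧
      ((wval s (F l).2 : H) : G) = (t (F l).1)⁻¹ * (eG l * t i0) := by
    intro l
    induction l with
    | nil =>
      have e : eG [] = 1 := rfl
      refine ⟨by rw [e, one_mul]; rfl, ?_⟩
      change ((wval s [] : H) : G) = (t i0)⁻¹ * (eG [] * t i0)
      rw [e, one_mul, inv_mul_cancel]
      rfl
    | cons a l ih =>
      obtain ⟨h1, h2⟩ := ih
      have e1 : (F (a :: l)).1 = nx a (F l).1 := rfl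
      have e2 : (F (a :: l)).2 = ω a (F l).1 ++ (F l).2 := rfl
      constructor
      · rw [e1, ht, φ.symm_apply_apply, eG_cons a l, mul_assoc]
        rw [QuotientGroup.eq] at h1 ⊢
        have e3 : (eG [a] * t (F l).1)⁻¹ * (eG [a] * (eG l * t i0)) =
            (t (F l).1)⁻¹ * (eG l * t i0) := by group
        rw [e3]
        exact h1
      · rw [e1, e2, wval_append, Subgroup.coe_mul, hω, h2, eG_cons a l]
        group
  refine ⟨fun l => wa ++ ((F l).2 ++ wb), ?_, ?_⟩
  · have h2 : Primrec F := primrec_fold nx ω i0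
    exact Primrec.list_append.comp (Primrec.const _)
      (Primrec.list_append.comp (Primrec.snd.comp h2) (Primrec.const _))
  · intro l hl
    obtain ⟨h1, h2⟩ := hF l
    have h3 : (F l).1 = i0 := by
      have h4 : ((t (F l).1 : G) : G ⧸ H) = ((1 : G) : G ⧸ H) := by
        rw [h1, QuotientGroup.eq, mul_one]
        exact inv_mem (mul_mem hl ht0)
      rw [ht] at h4
      change (F l).1 = φ ((1 : G) : G ⧸ H)
      rw [← h4, φ.apply_symm_apply]
    rw [wval_append, wval_append, Subgroup.coe_mul, Subgroup.coe_mul, hwa, hwb, h2, h3]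
    change t i0 * ((t i0)⁻¹ * (eG l * t i0) * (t i0)⁻¹) = eG l
    group

/-- programs with the same behaviour and large numbers -/
theorem padding (n : ℕ) : ∃ P : Nat.Partrec.Code → Nat.Partrec.Code, Primrec P ∧
    ∀ c, n ≤ Encodable.encode (P c) ∧
      ((Nat.Partrec.Code.eval (P c) 0).Dom ↔ (Nat.Partrec.Code.eval c 0).Dom) := by
  induction n with
  | zero => exact ⟨id, Primrec.id, fun c => ⟨Nat.zero_le _, Iff.rfl⟩⟩
  | succ n ih =>
    obtain ⟨P, hP, h⟩ := ih
    refine ⟨fun c => Nat.Partrec.Code.pair (P c) Nat.Partrec.Code.zero,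
      Nat.Partrec.Code.primrec₂_pair.comp hP (Primrec.const _), fun c => ⟨?_, ?_⟩⟩
    · exact lt_of_le_of_lt (h c).1 (Nat.Partrec.Code.encode_lt_pair (P c) _).1
    · rw [← (h c).2]
      constructor
      · intro hd
        have h1 : (Nat.Partrec.Code.eval ((P c).pair Nat.Partrec.Code.zero) 0) =
          Nat.pair <$> (P c).eval 0 <*> Nat.Partrec.Code.zero.eval 0 := rfl
        rw [h1] at hd
        simp only [Seq.seq, Part.map_eq_map] at hd
        have h2 : (Part.map Nat.pair ((P c).eval 0)).Dom := Part.Dom.of_bind hd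
        exact h2
      · intro hd
        have h1 : (Nat.Partrec.Code.eval ((P c).pair Nat.Partrec.Code.zero) 0) =
          Nat.pair <$> (P c).eval 0 <*> Nat.Partrec.Code.zero.eval 0 := rfl
        rw [h1]
        obtain ⟨x, hx⟩ := Part.dom_iff_mem.1 hd
        rw [Part.dom_iff_mem]
        refine ⟨Nat.pair x 0, ?_⟩
        simp only [Seq.seq, Part.map_eq_map, Part.mem_bind_iff, Part.mem_map_iff]
        refine ⟨Nat.pair x, ⟨x, hx, rfl⟩, ?_⟩
        exact ⟨0, by simp [Nat.Partrec.Code.eval, pure, PFun.pure], rfl⟩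

end Pool.Agent.Y482.Br
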